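import Pool.Agent.H9.K2.Stmts2

/-!
# MEX: existence of maximal families
-/

set_option autoImplicit false

namespace Pool.KA

open Finset Real
open Pool.Agent.H49.Ent Pool.Agent.H32.Dense Pool.STK

theorem MEX_thm : MEXStmt := by
  intro m a R h τ hτ J₀
  obtain ⟨J, hJ, F, h1, h2⟩ := h τ hτ τ hτ J₀
  exact ⟨J, hJ, F, h1, h2⟩

end Pool.KA
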