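import Pool.Agent.H9.K2.Stmts

/-!
# ABY: symmetry of the mutual information
-/

set_option autoImplicit false

namespace Pool.KA

open Finset Real
open Pool.Agent.H49.Ent Pool.Agent.H32.Dense Pool.STK

theorem ABY_thm : ABYStmt := by
  intro Ω S U V _ p hp X Y W
  have e : H p (fun ω => (X ω, (Y ω, W ω))) = H p (fun ω => (Y ω, (X ω, W ω))) := by
    refine H_congr hp ?_ ?_
    · intro ω ω' _ _ h
      simp only [Prod.mk.injEq] at h ⊢
      exact ⟨h.2.1, h.1, h.2.2⟩
    · intro ω ω' _ _ h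
      simp only [Prod.mk.injEq] at h ⊢
      exact ⟨h.2.1, h.1, h.2.2⟩
  unfold CH
  rw [e]
  ring

end Pool.KA
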